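import Mathlib
import Pool.Agent.H52.CF

set_option autoImplicit false
open Pool.Agent.H52.CF

namespace Pool.Agent.Results.MP_c624c9_nt.Counter

/-- The map x to (d x + k) / (x + d) on positive rationals. -/
def f (k : ℕ) (d x : ℚ) : ℚ := (d * x + k) / (x + d)

/-- The iterate f^n(infinity) for n at least 1 (f(infinity) = d). -/
def orb (k : ℕ) (d : ℚ) (n : ℕ) : ℚ := (f k d)^[n - 1] d

/-- R = 4 d^2 / (k - d^2) is an integer. -/
def RInt (k : ℕ) (d : ℚ) : Prop := ∃ m : ℤ, 4 * d ^ 2 / (k - d ^ 2) = m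

/-- A positive fraction p / q in lowest terms with p^2 - k q^2 = 1 or -1. -/
def Pellian (k : ℕ) (x : ℚ) : Prop :=
  0 < x ∧ (x.num ^ 2 - k * (x.den : ℤ) ^ 2 = 1 ∨ x.num ^ 2 - k * (x.den : ℤ) ^ 2 = -1)

lemma s0 : ⌊qs 375 0 1⌋ = 19 ∧ (Int.fract (qs 375 0 1))⁻¹ = qs 375 19 14 :=
  step 375 19 (by norm_num) (by norm_num) (by norm_num) _ _ _ _ _ (by norm_num) (by norm_num)
    (by norm_num) (by norm_num) (by norm_num)

lemma s1 : ⌊qs 375 19 14⌋ = 2 ∧ (Int.fract (qs 375 19 14))⁻¹ = qs 375 9 21 :=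
  step 375 19 (by norm_num) (by norm_num) (by norm_num) _ _ _ _ _ (by norm_num) (by norm_num)
    (by norm_num) (by norm_num) (by norm_num)

lemma s2 : ⌊qs 375 9 21⌋ = 1 ∧ (Int.fract (qs 375 9 21))⁻¹ = qs 375 12 11 :=
  step 375 19 (by norm_num) (by norm_num) (by norm_num) _ _ _ _ _ (by norm_num) (by norm_num)
    (by norm_num) (by norm_num) (by norm_num)

lemma s3 : ⌊qs 375 12 11⌋ = 2 ∧ (Int.fract (qs 375 12 11))⁻¹ = qs 375 10 25 :=
  step 375 19 (by norm_num) (by norm_num) (by norm_num) _ _ _ _ _ (by norm_num) (by norm_num)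
    (by norm_num) (by norm_num) (by norm_num)

lemma s4 : ⌊qs 375 10 25⌋ = 1 ∧ (Int.fract (qs 375 10 25))⁻¹ = qs 375 15 6 :=
  step 375 19 (by norm_num) (by norm_num) (by norm_num) _ _ _ _ _ (by norm_num) (by norm_num)
    (by norm_num) (by norm_num) (by norm_num)

lemma s5 : ⌊qs 375 15 6⌋ = 5 ∧ (Int.fract (qs 375 15 6))⁻¹ = qs 375 15 25 :=
  step 375 19 (by norm_num) (by norm_num) (by norm_num) _ _ _ _ _ (by norm_num) (by norm_num)
    (by norm_num) (by norm_num) (by norm_num)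

lemma s6 : ⌊qs 375 15 25⌋ = 1 ∧ (Int.fract (qs 375 15 25))⁻¹ = qs 375 10 11 :=
  step 375 19 (by norm_num) (by norm_num) (by norm_num) _ _ _ _ _ (by norm_num) (by norm_num)
    (by norm_num) (by norm_num) (by norm_num)

lemma s7 : ⌊qs 375 10 11⌋ = 2 ∧ (Int.fract (qs 375 10 11))⁻¹ = qs 375 12 21 :=
  step 375 19 (by norm_num) (by norm_num) (by norm_num) _ _ _ _ _ (by norm_num) (by norm_num)
    (by norm_num) (by norm_num) (by norm_num)

lemma s8 : ⌊qs 375 12 21⌋ = 1 ∧ (Int.fract (qs 375 12 21))⁻¹ = qs 375 9 14 :=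
  step 375 19 (by norm_num) (by norm_num) (by norm_num) _ _ _ _ _ (by norm_num) (by norm_num)
    (by norm_num) (by norm_num) (by norm_num)

lemma s9 : ⌊qs 375 9 14⌋ = 2 ∧ (Int.fract (qs 375 9 14))⁻¹ = qs 375 19 1 :=
  step 375 19 (by norm_num) (by norm_num) (by norm_num) _ _ _ _ _ (by norm_num) (by norm_num)
    (by norm_num) (by norm_num) (by norm_num)

lemma c0 : (Real.sqrt (375 : ℕ)).convergent 0 = 19 / 1 := by
  rw [← qs_zero_one]
  simp only [Real.convergent_succ, Real.convergent_zero, s0.1]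
  norm_num

lemma c1 : (Real.sqrt (375 : ℕ)).convergent 1 = 39 / 2 := by
  rw [← qs_zero_one]
  simp only [Real.convergent_succ, Real.convergent_zero, s0.1, s0.2, s1.1]
  norm_num

lemma c2 : (Real.sqrt (375 : ℕ)).convergent 2 = 58 / 3 := by
  rw [← qs_zero_one]
  simp only [Real.convergent_succ, Real.convergent_zero, s0.1, s0.2, s1.1, s1.2, s2.1]
  norm_num

lemma c3 : (Real.sqrt (375 : ℕ)).convergent 3 = 155 / 8 := by
  rw [← qs_zero_one]
  simp only [Real.convergent_succ, Real.convergent_zero, s0.1, s0.2, s1.1, s1.2, s2.1, s2.2, s3.1]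
  norm_num

lemma c4 : (Real.sqrt (375 : ℕ)).convergent 4 = 213 / 11 := by
  rw [← qs_zero_one]
  simp only [Real.convergent_succ, Real.convergent_zero, s0.1, s0.2, s1.1, s1.2, s2.1, s2.2, s3.1, s3.2, s4.1]
  norm_num

lemma c5 : (Real.sqrt (375 : ℕ)).convergent 5 = 1220 / 63 := by
  rw [← qs_zero_one]
  simp only [Real.convergent_succ, Real.convergent_zero, s0.1, s0.2, s1.1, s1.2, s2.1, s2.2, s3.1, s3.2, s4.1, s4.2, s5.1]
  norm_num

lemma c6 : (Real.sqrt (375 : ℕ)).convergent 6 = 1433 / 74 := by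
  rw [← qs_zero_one]
  simp only [Real.convergent_succ, Real.convergent_zero, s0.1, s0.2, s1.1, s1.2, s2.1, s2.2, s3.1, s3.2, s4.1, s4.2, s5.1, s5.2, s6.1]
  norm_num

lemma c7 : (Real.sqrt (375 : ℕ)).convergent 7 = 4086 / 211 := by
  rw [← qs_zero_one]
  simp only [Real.convergent_succ, Real.convergent_zero, s0.1, s0.2, s1.1, s1.2, s2.1, s2.2, s3.1, s3.2, s4.1, s4.2, s5.1, s5.2, s6.1, s6.2, s7.1]
  norm_num

lemma c8 : (Real.sqrt (375 : ℕ)).convergent 8 = 5519 / 285 := by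
  rw [← qs_zero_one]
  simp only [Real.convergent_succ, Real.convergent_zero, s0.1, s0.2, s1.1, s1.2, s2.1, s2.2, s3.1, s3.2, s4.1, s4.2, s5.1, s5.2, s6.1, s6.2, s7.1, s7.2, s8.1]
  norm_num

lemma c9 : (Real.sqrt (375 : ℕ)).convergent 9 = 15124 / 781 := by
  rw [← qs_zero_one]
  simp only [Real.convergent_succ, Real.convergent_zero, s0.1, s0.2, s1.1, s1.2, s2.1, s2.2, s3.1, s3.2, s4.1, s4.2, s5.1, s5.2, s6.1, s6.2, s7.1, s7.2, s8.1, s8.2, s9.1]
  norm_num

/-- For k = 375 the first Pellian iterate differs from the first Pellian convergent. -/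
theorem result :
    ∃ k : ℕ, 0 < k ∧ ¬ IsSquare k ∧ ∃ i n j : ℕ,
      IsLeast {i : ℕ | RInt k ((Real.sqrt k).convergent i)} i ∧
      IsLeast {n : ℕ | 1 ≤ n ∧ Pellian k (orb k ((Real.sqrt k).convergent i) n)} n ∧
      IsLeast {j : ℕ | Pellian k ((Real.sqrt k).convergent j)} j ∧
      orb k ((Real.sqrt k).convergent i) n ≠ (Real.sqrt k).convergent j := by
  refine ⟨375, by norm_num, by decide +kernel, 3, 5, 9, ⟨⟨-3844, ?_⟩, ?_⟩, ⟨⟨by norm_num, ?_⟩, ?_⟩,
    ⟨?_, ?_⟩, ?_⟩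
  · rw [c3]; norm_num
  · rintro i ⟨m, hm⟩
    by_contra hlt
    have hi : i = 0 ∨ i = 1 ∨ i = 2 := by omega
    rcases hi with rfl | rfl | rfl
    · rw [c0] at hm
      have : (722 : ℚ) = 7 * m := by rw [← hm]; norm_num
      have : (722 : ℤ) = 7 * m := by exact_mod_cast this
      omega
    · rw [c1] at hm
      have : (-2028 : ℚ) = 7 * m := by rw [← hm]; norm_num
      have : (-2028 : ℤ) = 7 * m := by exact_mod_cast this
      omega
    · rw [c2] at hm
      have : (13456 : ℚ) = 11 * m := by rw [← hm]; norm_num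
      have : (13456 : ℤ) = 11 * m := by exact_mod_cast this
      omega
  · rw [c3]; unfold Pellian orb f; decide +kernel
  · rintro n ⟨h1, hp⟩
    by_contra hlt
    have hi : n = 1 ∨ n = 2 ∨ n = 3 ∨ n = 4 := by omega
    rw [c3] at hp
    rcases hi with rfl | rfl | rfl | rfl <;> revert hp <;> unfold Pellian orb f <;> decide +kernel
  · show Pellian _ _
    rw [c9]; unfold Pellian; decide +kernel
  · rintro j hp
    by_contra hlt
    have hi : j = 0 ∨ j = 1 ∨ j = 2 ∨ j = 3 ∨ j = 4 ∨ j = 5 ∨ j = 6 ∨ j = 7 ∨ j = 8 := by omega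
    change Pellian _ _ at hp
    rcases hi with rfl | rfl | rfl | rfl | rfl | rfl | rfl | rfl | rfl <;>
      simp only [c0, c1, c2, c3, c4, c5, c6, c7, c8] at hp <;> revert hp <;> unfold Pellian <;>
      decide +kernel
  · rw [c3, c9]; unfold orb f; decide +kernel

end Pool.Agent.Results.MP_c624c9_nt.Counter
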